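import Mathlib
import Pool.Graph.R_seed8.W450.RigExt

/-!
Vanishing of `Ext` along a surjective ring homomorphism whose kernel is idempotent and projective.
-/

set_option autoImplicit false

open CategoryTheory CategoryTheory.Abelian
open W450.Rig (sc sc_exact ext_step ext_one)

namespace Pool.Agent.Helper60.GS

universe u

variable {R S : Type u} [Ring R] [Ring S]

/-- restriction of scalars -/
def Rs (_π : R →+* S) (M : Type u) : Type u := M

instance (π : R →+* S) (M : Type u) [AddCommGroup M] : AddCommGroup (Rs π M) :=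
  inferInstanceAs (AddCommGroup M)

instance (π : R →+* S) (M : Type u) [AddCommGroup M] [Module S M] : Module R (Rs π M) :=
  Module.compHom M π

theorem rs_smul (π : R →+* S) {M : Type u} [AddCommGroup M] [Module S M] (r : R) (m : Rs π M) :
    r • m = (show Rs π M from (π r • (show M from m))) := rfl

/-- restriction of scalars of a linear map -/
def Rs.map (π : R →+* S) {M N : Type u} [AddCommGroup M] [AddCommGroup N] [Module S M] [Module S N]
    (g : M →ₗ[S] N) : Rs π M →ₗ[R] Rs π N where
  toFun := g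
  map_add' := g.map_add
  map_smul' r m := g.map_smul (π r) m

/-- a linear map over `R` is linear over `S` -/
def Rs.unmap {π : R →+* S} (hπ : Function.Surjective π) {M N : Type u} [AddCommGroup M]
    [AddCommGroup N] [Module S M] [Module S N] (g : Rs π M →ₗ[R] Rs π N) : M →ₗ[S] N where
  toFun := g
  map_add' := g.map_add
  map_smul' s m := by
    obtain ⟨r, rfl⟩ := hπ s
    exact g.map_smul r m

/-- the hypotheses on the ring homomorphism -/
structure Good (π : R →+* S) : Prop where
  surj : Function.Surjective π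
  proj : Module.Projective R (RingHom.ker π)
  idem : ∀ x ∈ RingHom.ker π, ∃ (n : ℕ) (a b : Fin n → R), (∀ i, a i ∈ RingHom.ker π) ∧
    (∀ i, b i ∈ RingHom.ker π) ∧ x = ∑ i, a i * b i

variable {π : R →+* S}

theorem hom_zero (h : Good π) {ι : Type u} {Y : Type u} [AddCommGroup Y] [Module S Y]
    (g : (ι →₀ (RingHom.ker π)) →ₗ[R] Rs π Y) : g = 0 := by
  apply Finsupp.lhom_ext
  intro i x
  obtain ⟨n, a, b, ha, hb, hx⟩ := h.idem x.1 x.2
  have h1 : (Finsupp.single i x : ι →₀ (RingHom.ker π)) =
      ∑ j, a j • Finsupp.single i (⟨b j, hb j⟩ : RingHom.ker π) := by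
    simp_rw [Finsupp.smul_single]
    rw [← Finsupp.single_finsetSum]
    congr 1
    apply Subtype.ext
    rw [hx]
    simp
  rw [h1, map_sum, LinearMap.zero_apply]
  refine Finset.sum_eq_zero fun j _ => ?_
  rw [map_smul]
  have h2 : π (a j) = 0 := ha j
  have h3 : ∀ y : Rs π Y, a j • y = 0 := by
    intro y
    rw [rs_smul, h2]
    exact zero_smul S (show Y from y)
  exact h3 _

theorem proj_ker (h : Good π) (ι : Type u) : Module.Projective R (ι →₀ (RingHom.ker π)) := by
  classical
  have := h.proj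
  exact Module.Projective.of_equiv (finsuppLequivDFinsupp R).symm

/-- the cover of a free `S`-module -/
noncomputable def cov (π : R →+* S) (ι : Type u) : (ι →₀ R) →ₗ[R] Rs π (ι →₀ S) where
  toFun f := (f.mapRange π (map_zero π) : ι →₀ S)
  map_add' f g := Finsupp.mapRange_add (map_add π) f g
  map_smul' r f := by
    have : ∀ i, (Finsupp.mapRange π (map_zero π) (r • f)) i =
        (π r • (Finsupp.mapRange π (map_zero π) f) : ι →₀ S) i := by
      intro i
      simp
    exact Finsupp.ext this

noncomputable def inc (π : R →+* S) (ι : Type u) : (ι →₀ (RingHom.ker π)) →ₗ[R] (ι →₀ R) :=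
  Finsupp.mapRange.linearMap (RingHom.ker π).subtype

theorem inc_inj (ι : Type u) : Function.Injective (inc π ι) :=
  Finsupp.mapRange_injective _ (map_zero _) (Subtype.val_injective)

theorem cov_surj (h : Good π) (ι : Type u) : Function.Surjective (cov π ι) :=
  Finsupp.mapRange_surjective _ (map_zero _) h.surj

theorem exact_ic (ι : Type u) : Function.Exact (inc π ι) (cov π ι) := by
  intro f
  constructor
  · intro hf
    have h1 : ∀ i, f i ∈ RingHom.ker π := by
      intro i
      have := DFunLike.congr_fun (F := ι →₀ S) hf i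
      exact this
    refine ⟨⟨f.support, fun i => ⟨f i, h1 i⟩, fun i => ?_⟩, ?_⟩
    · rw [Finsupp.mem_support_iff, ne_eq, ne_eq, not_iff_not]
      exact ⟨fun h => Subtype.ext h, fun h => congrArg Subtype.val h⟩
    · apply Finsupp.ext
      intro i
      rfl
  · rintro ⟨g, rfl⟩
    have : ∀ i, (Finsupp.mapRange π (map_zero π) (inc π ι g)) i = (0 : ι →₀ S) i := by
      intro i
      rw [Finsupp.mapRange_apply]
      exact (g i).2
    exact Finsupp.ext this

theorem ext_free (h : Good π) (ι : Type u) (Y : Type u) [AddCommGroup Y] [Module S Y] (i : ℕ)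
    (hi : 1 ≤ i) :
    Subsingleton (Ext (ModuleCat.of R (Rs π (ι →₀ S))) (ModuleCat.of R (Rs π Y)) i) := by
  obtain ⟨n, rfl⟩ : ∃ n, i = n + 1 := ⟨i - 1, by omega⟩
  rcases Nat.eq_zero_or_pos n with rfl | hn
  · exact ext_one (inc π ι) (cov π ι) (exact_ic ι) (inc_inj ι) (cov_surj h ι)
      (fun g => ⟨0, by rw [hom_zero h g, LinearMap.zero_comp]⟩)
  · refine ext_step (inc π ι) (cov π ι) (exact_ic ι) (inc_inj ι) (cov_surj h ι) n ?_
    have := proj_ker h ι
    obtain ⟨m, rfl⟩ : ∃ m, n = m + 1 := ⟨n - 1, by omega⟩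
    have h1 : Projective (ModuleCat.of R (ι →₀ (RingHom.ker π))) := inferInstance
    exact subsingleton_of_forall_eq 0 fun x =>
      Ext.eq_zero_of_projective (P := ModuleCat.of R (ι →₀ (RingHom.ker π))) x

section shift

variable {M P N Y : Type u} [AddCommGroup M] [AddCommGroup P] [AddCommGroup N] [AddCommGroup Y]
  [Module R M] [Module R P] [Module R N] [Module R Y]

/-- dimension shifting up, with `Ext^{n+1}(P, Y) = 0` -/
theorem up (i : N →ₗ[R] P) (p : P →ₗ[R] M) (hex : Function.Exact i p)
    (hi : Function.Injective i) (hp : Function.Surjective p) (n : ℕ)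
    (hP : Subsingleton (Ext (ModuleCat.of R P) (ModuleCat.of R Y) (n + 1)))
    (h : Subsingleton (Ext (ModuleCat.of R N) (ModuleCat.of R Y) n)) :
    Subsingleton (Ext (ModuleCat.of R M) (ModuleCat.of R Y) (n + 1)) := by
  refine subsingleton_of_forall_eq 0 fun x => ?_
  have hS := sc_exact i p hex hi hp
  obtain ⟨y, hy⟩ := Ext.contravariant_sequence_exact₃ (S := sc i p hex) hS
    (ModuleCat.of R Y) (n₁ := n + 1) x
    (@Subsingleton.elim _ hP _ _) (n₀ := n) (add_comm 1 n)
  have h0 : y = 0 := @Subsingleton.elim _ h y 0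
  rw [← hy, h0, Ext.comp_zero]
  rfl

/-- dimension shifting down, with `Ext^n(P, Y) = 0` -/
theorem down (i : N →ₗ[R] P) (p : P →ₗ[R] M) (hex : Function.Exact i p)
    (hi : Function.Injective i) (hp : Function.Surjective p) (n : ℕ)
    (hP : Subsingleton (Ext (ModuleCat.of R P) (ModuleCat.of R Y) n))
    (h : Subsingleton (Ext (ModuleCat.of R M) (ModuleCat.of R Y) (n + 1))) :
    Subsingleton (Ext (ModuleCat.of R N) (ModuleCat.of R Y) n) := by
  refine subsingleton_of_forall_eq 0 fun x => ?_
  have hS := sc_exact i p hex hi hp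
  obtain ⟨y, hy⟩ := Ext.contravariant_sequence_exact₁ (S := sc i p hex) hS
    (ModuleCat.of R Y) (n₀ := n) x (n₁ := n + 1) (add_comm 1 n) (@Subsingleton.elim _ h _ _)
  have h0 : y = 0 := @Subsingleton.elim _ hP y 0
  rw [← hy, h0, Ext.comp_zero]
  rfl

/-- degree one, with `Ext^1(P, Y) = 0` -/
theorem up_one (i : N →ₗ[R] P) (p : P →ₗ[R] M) (hex : Function.Exact i p)
    (hi : Function.Injective i) (hp : Function.Surjective p)
    (hP : Subsingleton (Ext (ModuleCat.of R P) (ModuleCat.of R Y) 1))
    (h : ∀ g : N →ₗ[R] Y, ∃ g' : P →ₗ[R] Y, g' ∘ₗ i = g) :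
    Subsingleton (Ext (ModuleCat.of R M) (ModuleCat.of R Y) 1) := by
  refine subsingleton_of_forall_eq 0 fun x => ?_
  have hS := sc_exact i p hex hi hp
  obtain ⟨y, hy⟩ := Ext.contravariant_sequence_exact₃ (S := sc i p hex) hS
    (ModuleCat.of R Y) (n₁ := 1) x
    (@Subsingleton.elim _ hP _ _) (n₀ := 0) (add_comm 1 0)
  obtain ⟨g, rfl⟩ := Ext.addEquiv₀.symm.surjective y
  obtain ⟨g', hg'⟩ := h g.hom
  have e1 : g = (sc i p hex).f ≫ ModuleCat.ofHom g' := by
    ext x
    exact (LinearMap.congr_fun hg' x).symm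
  have e2 : (Ext.addEquiv₀.symm ((sc i p hex).f ≫ ModuleCat.ofHom g') :
      Ext (sc i p hex).X₁ (ModuleCat.of R Y) 0) =
      (Ext.mk₀ (sc i p hex).f).comp
        (Ext.mk₀ (Y := ModuleCat.of R Y) (X := (sc i p hex).X₂) (ModuleCat.ofHom g'))
        (add_zero 0) :=
    (Ext.mk₀_comp_mk₀ (sc i p hex).f
      (Z := ModuleCat.of R Y) (ModuleCat.ofHom g')).symm
  rw [← hy, e1, e2, hS.extClass_comp_assoc]
  rfl

/-- if `Ext^1(M, Y) = 0` then linear maps extend -/
theorem extend_of (i : N →ₗ[R] P) (p : P →ₗ[R] M) (hex : Function.Exact i p)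
    (hi : Function.Injective i) (hp : Function.Surjective p)
    (h : Subsingleton (Ext (ModuleCat.of R M) (ModuleCat.of R Y) 1)) (g : N →ₗ[R] Y) :
    ∃ g' : P →ₗ[R] Y, g' ∘ₗ i = g := by
  have hS := sc_exact i p hex hi hp
  obtain ⟨y, hy⟩ := Ext.contravariant_sequence_exact₁ (S := sc i p hex) hS
    (ModuleCat.of R Y) (n₀ := 0)
    (Ext.mk₀ (X := ModuleCat.of R N) (Y := ModuleCat.of R Y) (ModuleCat.ofHom g))
    (n₁ := 1) rfl (@Subsingleton.elim _ h _ _)
  obtain ⟨g', rfl⟩ := Ext.addEquiv₀.symm.surjective y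
  refine ⟨g'.hom, ?_⟩
  have h1 : Ext.mk₀ ((sc i p hex).f ≫ g') =
      Ext.mk₀ (X := ModuleCat.of R N) (Y := ModuleCat.of R Y) (ModuleCat.ofHom g) := by
    rw [← hy]
    exact (Ext.mk₀_comp_mk₀ (sc i p hex).f g').symm
  have h2 : (sc i p hex).f ≫ g' = (ModuleCat.ofHom g : ModuleCat.of R N ⟶ ModuleCat.of R Y) :=
    (Ext.mk₀_bijective _ _).1 h1
  have h3 := congrArg (fun q : ModuleCat.of R N ⟶ ModuleCat.of R Y => q.hom) h2
  exact h3

end shift

/-- **Vanishing of `Ext` is inherited by restriction of scalars**, in each degree. -/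
theorem ext_res (h : Good π) : ∀ (i : ℕ), 1 ≤ i → ∀ (X Y : Type u) [AddCommGroup X]
    [AddCommGroup Y] [Module S X] [Module S Y],
    Subsingleton (Ext (ModuleCat.of S X) (ModuleCat.of S Y) i) →
    Subsingleton (Ext (ModuleCat.of R (Rs π X)) (ModuleCat.of R (Rs π Y)) i) := by
  intro i hi
  induction i, hi using Nat.le_induction with
  | base =>
    intro X Y _ _ _ _ hE
    let p : (X →₀ S) →ₗ[S] X := Finsupp.linearCombination S id
    have hp : Function.Surjective p := Finsupp.linearCombination_id_surjective S X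
    let N := LinearMap.ker p
    have hex : Function.Exact N.subtype p := LinearMap.exact_subtype_ker_map p
    have hinj : Function.Injective N.subtype := N.injective_subtype
    refine up_one (N := Rs π N) (Rs.map π (M := N) N.subtype) (Rs.map π p) hex hinj hp (ext_free h X Y 1 le_rfl)
      fun g => ?_
    obtain ⟨g', hg'⟩ := extend_of N.subtype p hex hinj hp hE (Rs.unmap h.surj g)
    refine ⟨Rs.map π g', ?_⟩
    ext x
    exact LinearMap.congr_fun hg' x
  | succ i hi ih =>
    intro X Y _ _ _ _ hE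
    let p : (X →₀ S) →ₗ[S] X := Finsupp.linearCombination S id
    have hp : Function.Surjective p := Finsupp.linearCombination_id_surjective S X
    let N := LinearMap.ker p
    have hex : Function.Exact N.subtype p := LinearMap.exact_subtype_ker_map p
    have hinj : Function.Injective N.subtype := N.injective_subtype
    refine up (N := Rs π N) (Rs.map π (M := N) N.subtype) (Rs.map π p) hex hinj hp i (ext_free h X Y (i + 1) (by omega)) ?_
    refine ih N Y ?_
    refine down N.subtype p hex hinj hp i ?_ hE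
    obtain ⟨m, rfl⟩ : ∃ m, i = m + 1 := ⟨i - 1, by omega⟩
    have h1 : Projective (ModuleCat.of S (X →₀ S)) := inferInstance
    exact subsingleton_of_forall_eq 0 fun x =>
      Ext.eq_zero_of_projective (P := ModuleCat.of S (X →₀ S)) x

end Pool.Agent.Helper60.GS
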