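import Mathlib

/-!
The `K`-algebra structure of the endomorphism ring of a right module over a `K`-algebra.
-/

set_option autoImplicit false

open MulOpposite

namespace Pool.Agent.Helper60.GS

universe u

section

variable (K B M : Type u) [Field K] [Ring B] [Algebra K B] [AddCommGroup M] [Module Bᵐᵒᵖ M]

/-- the scalars as endomorphisms -/
def scal : K →+* Module.End Bᵐᵒᵖ M where
  toFun k :=
    { toFun := fun m => op (algebraMap K B k) • m
      map_add' := fun m n => smul_add _ m n
      map_smul' := fun r m => by
        rw [RingHom.id_apply, ← mul_smul, ← mul_smul]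
        congr 1
        apply unop_injective
        exact (Algebra.commutes k r.unop).symm }
  map_one' := LinearMap.ext fun m => by
    change op (algebraMap K B 1) • m = m
    rw [map_one, op_one, one_smul]
  map_mul' k l := LinearMap.ext fun m => by
    change op (algebraMap K B (k * l)) • m = op (algebraMap K B k) • op (algebraMap K B l) • m
    rw [← mul_smul, ← op_mul, ← map_mul, mul_comm]
  map_zero' := LinearMap.ext fun m => by
    change op (algebraMap K B 0) • m = 0
    rw [map_zero, op_zero, zero_smul]
  map_add' k l := LinearMap.ext fun m => by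
    change op (algebraMap K B (k + l)) • m = op (algebraMap K B k) • m + op (algebraMap K B l) • m
    rw [← add_smul, ← op_add, ← map_add]

theorem scal_apply (k : K) (m : M) : scal K B M k m = op (algebraMap K B k) • m := rfl

/-- the algebra structure on the endomorphism ring -/
@[reducible] def endAlg : Algebra K (Module.End Bᵐᵒᵖ M) :=
  RingHom.toAlgebra' (scal K B M) fun k a => LinearMap.ext fun m => by
    change op (algebraMap K B k) • a m = a (op (algebraMap K B k) • m)
    rw [map_smul]

theorem endAlg_finite (hB : Module.Finite K B) (hM : Module.Finite Bᵐᵒᵖ M) :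
    letI := endAlg K B M
    Module.Finite K (Module.End Bᵐᵒᵖ M) := by
  letI := endAlg K B M
  letI : Module K M := Module.compHom M (algebraMap K Bᵐᵒᵖ)
  haveI : IsScalarTower K Bᵐᵒᵖ M := ⟨fun k b m => by
    have h1 : (k • b) = algebraMap K Bᵐᵒᵖ k * b := Algebra.smul_def k b
    rw [h1, mul_smul]
    rfl⟩
  haveI : Module.Finite K Bᵐᵒᵖ := Module.Finite.equiv (MulOpposite.opLinearEquiv K : B ≃ₗ[K] Bᵐᵒᵖ)
  haveI : Module.Finite K M := Module.Finite.trans Bᵐᵒᵖ M
  let f : Module.End Bᵐᵒᵖ M →ₗ[K] (M →ₗ[K] M) :=
    { toFun := fun a =>
        { toFun := a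
          map_add' := a.map_add
          map_smul' := fun k m => a.map_smul (algebraMap K Bᵐᵒᵖ k) m }
      map_add' := fun a b => rfl
      map_smul' := fun k a => rfl }
  have hf : Function.Injective f := by
    intro a b hab
    exact LinearMap.ext fun m => LinearMap.congr_fun hab m
  exact Module.Finite.of_injective f hf

end

end Pool.Agent.Helper60.GS
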