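import Mathlib
import Pool.Agent.Helper60.GS.Change
import Pool.Graph.R_seed8.W450.RigDefs

/-!
Restriction of scalars along a surjective ring homomorphism does not decrease the number of
indecomposable summands.
-/

set_option autoImplicit false

open CategoryTheory CategoryTheory.Limits CategoryTheory.Abelian
open W450.Rig (IsRigid size oSize IsConnectedRing)

namespace Pool.Agent.Helper60.GS

universe u

variable {R S : Type u} [Ring R] [Ring S] {π : R →+* S}

/-- restriction of scalars of an object -/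
def res (π : R →+* S) (X : ModuleCat.{u} S) : ModuleCat.{u} R := ModuleCat.of R (Rs π X)

/-- restriction of scalars of an equivalence -/
def Rs.equiv (π : R →+* S) {M N : Type u} [AddCommGroup M] [AddCommGroup N] [Module S M]
    [Module S N] (g : M ≃ₗ[S] N) : Rs π M ≃ₗ[R] Rs π N where
  __ := Rs.map π g.toLinearMap
  invFun := g.symm
  left_inv := g.left_inv
  right_inv := g.right_inv

theorem iso_res {X Y : ModuleCat.{u} S} (e : X ≅ Y) : Nonempty (res π X ≅ res π Y) :=
  ⟨(Rs.equiv π e.toLinearEquiv).toModuleIso⟩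

theorem iso_of_res (hπ : Function.Surjective π) {X Y : ModuleCat.{u} S} (e : res π X ≅ res π Y) :
    Nonempty (X ≅ Y) := by
  let f : Rs π X ≃ₗ[R] Rs π Y := e.toLinearEquiv
  let g : X ≃ₗ[S] Y := LinearEquiv.ofLinearMap (Rs.unmap hπ f.toLinearMap)
    (Rs.unmap hπ f.symm.toLinearMap) (LinearMap.ext fun y => f.apply_symm_apply y)
    (LinearMap.ext fun x => f.symm_apply_apply x)
  exact ⟨g.toModuleIso⟩

theorem iso_biprod_iff {X V Y : ModuleCat.{u} S} :
    Nonempty (X ≅ V ⊞ Y) ↔ Nonempty (X ≃ₗ[S] V × Y) := by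
  constructor
  · rintro ⟨e⟩
    exact ⟨(e ≪≫ ModuleCat.biprodIsoProd V Y).toLinearEquiv⟩
  · rintro ⟨e⟩
    exact ⟨e.toModuleIso ≪≫ (ModuleCat.biprodIsoProd V Y).symm⟩

theorem iso_biprod_res {X V Y : ModuleCat.{u} S} (h : Nonempty (X ≅ V ⊞ Y)) :
    Nonempty (res π X ≅ res π V ⊞ res π Y) := by
  obtain ⟨e⟩ := iso_biprod_iff.1 h
  refine iso_biprod_iff.2 ⟨?_⟩
  exact (Rs.equiv π e).trans
    { toFun := fun x => x
      invFun := fun x => x
      map_add' := fun _ _ => rfl
      map_smul' := fun _ _ => rfl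
      left_inv := fun _ => rfl
      right_inv := fun _ => rfl }

theorem idem_of_indec {X : ModuleCat.{u} S} (h : Indecomposable X) (e : X →ₗ[S] X)
    (he : ∀ x, e (e x) = e x) : (∀ x, e x = 0) ∨ ∀ x, e x = x := by
  have hi : IsIdempotentElem e := LinearMap.ext he
  have hc := LinearMap.IsIdempotentElem.isCompl hi
  let f := Submodule.prodEquivOfIsCompl _ _ hc
  have h1 := h.2 (ModuleCat.of S (LinearMap.range e)) (ModuleCat.of S (LinearMap.ker e))
    (f.symm.toModuleIso ≪≫ (ModuleCat.biprodIsoProd (ModuleCat.of S (LinearMap.range e))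
      (ModuleCat.of S (LinearMap.ker e))).symm)
  rcases h1 with h1 | h1
  · left
    intro x
    have h2 := ModuleCat.isZero_iff_subsingleton.1 h1
    have h3 : (⟨e x, LinearMap.mem_range_self e x⟩ : LinearMap.range e) = 0 :=
      @Subsingleton.elim _ h2 _ _
    exact congrArg Subtype.val h3
  · right
    intro x
    have h2 := ModuleCat.isZero_iff_subsingleton.1 h1
    have h3 : (⟨e x - x, by rw [LinearMap.mem_ker, map_sub, he, sub_self]⟩ : LinearMap.ker e) = 0 :=
      @Subsingleton.elim _ h2 _ _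
    exact sub_eq_zero.1 (congrArg Subtype.val h3)

theorem indec_of_idem {X : ModuleCat.{u} S} (h0 : ¬ Subsingleton X)
    (h : ∀ e : X →ₗ[S] X, (∀ x, e (e x) = e x) → (∀ x, e x = 0) ∨ ∀ x, e x = x) :
    Indecomposable X := by
  refine ⟨fun hz => h0 (ModuleCat.isZero_iff_subsingleton.1 hz), fun Y Z e => ?_⟩
  let p : X ⟶ X := e.hom ≫ biprod.fst ≫ biprod.inl ≫ e.inv
  have hp : p ≫ p = p := by simp [p]
  rcases h p.hom (fun x => by
    have := congrArg (fun q : X ⟶ X => q.hom x) hp
    exact this) with h1 | h1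
  · left
    have hp0 : p = 0 := by
      apply ModuleCat.hom_ext
      exact LinearMap.ext h1
    rw [IsZero.iff_id_eq_zero]
    have : (𝟙 Y : Y ⟶ Y) = biprod.inl ≫ e.inv ≫ p ≫ e.hom ≫ biprod.fst := by simp [p]
    rw [this, hp0]
    simp
  · right
    have hp1 : p = 𝟙 _ := by
      apply ModuleCat.hom_ext
      exact LinearMap.ext h1
    rw [IsZero.iff_id_eq_zero]
    have h2 : (𝟙 Z : Z ⟶ Z) = biprod.inr ≫ e.inv ≫ 𝟙 _ ≫ e.hom ≫ biprod.snd := by simp
    rw [h2, ← hp1]
    simp [p]

theorem indec_res (hπ : Function.Surjective π) {X : ModuleCat.{u} S} (h : Indecomposable X) :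
    Indecomposable (res π X) := by
  refine indec_of_idem (fun hs => ?_) fun e he => ?_
  · exact h.1 (ModuleCat.isZero_iff_subsingleton.2 hs)
  · exact idem_of_indec h (Rs.unmap hπ (M := X) (N := X) e) he

theorem finite_res (hπ : Function.Surjective π) (X : ModuleCat.{u} S) (h : Module.Finite S X) :
    Module.Finite R (res π X) := by
  obtain ⟨n, f, hf⟩ := Module.Finite.exists_fin' S X
  let g : (Fin n → R) →ₗ[R] Rs π X :=
    { toFun := fun v => f (fun i => π (v i))
      map_add' := fun v w => by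
        have : (fun i => π ((v + w) i)) = (fun i => π (v i)) + fun i => π (w i) :=
          funext fun i => map_add π _ _
        rw [this]
        exact map_add f _ _
      map_smul' := fun r v => by
        have : (fun i => π ((r • v) i)) = π r • fun i => π (v i) :=
          funext fun i => map_mul π _ _
        rw [this]
        exact map_smul f _ _ }
  refine Module.Finite.of_surjective g fun x => ?_
  obtain ⟨v, hv⟩ := hf x
  choose w hw using fun i => hπ (v i)
  refine ⟨w, ?_⟩
  have : (fun i => π (w i)) = v := funext hw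
  change f (fun i => π (w i)) = x
  rw [this]
  exact hv

/-- **Sizes do not decrease.** -/
theorem size_res {A B : Type u} [Ring A] [Ring B] {π : Aᵐᵒᵖ →+* Bᵐᵒᵖ}
    (hπ : Function.Surjective π) (M : ModuleCat.{u} Bᵐᵒᵖ) : size M ≤ size (res π M) := by
  let f : Quotient (isIsomorphicSetoid (ModuleCat.{u} Bᵐᵒᵖ)) →
      Quotient (isIsomorphicSetoid (ModuleCat.{u} Aᵐᵒᵖ)) :=
    Quotient.map (res π) fun X Y h => iso_res h.some
  have hf : Function.Injective f := by
    intro a b
    refine Quotient.inductionOn₂ a b fun X Y h => ?_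
    exact Quotient.sound (iso_of_res hπ (Quotient.exact h).some)
  unfold size
  rw [← hf.encard_image]
  refine Set.encard_le_encard ?_
  rintro _ ⟨c, ⟨X, Y, h1, h2, rfl⟩, rfl⟩
  exact ⟨res π X, res π Y, indec_res hπ h1, iso_biprod_res h2, rfl⟩

/-- **`o_k` does not decrease** along a good surjection. -/
theorem o_res {A B : Type u} [Ring A] [Ring B] {π : Aᵐᵒᵖ →+* Bᵐᵒᵖ} (h : Good π) (k : ℕ) :
    oSize B k ≤ oSize A k := by
  refine iSup_le fun M => iSup_le fun hM => iSup_le fun hr => ?_
  refine (size_res h.surj M).trans (le_iSup_of_le (res π M) (le_iSup_of_le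
    (finite_res h.surj M hM) (le_iSup_of_le (fun i hi hik => ?_) le_rfl)))
  exact ext_res h i hi M M (hr i hi hik)

end Pool.Agent.Helper60.GS
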