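import Mathlib
import Pool.Graph.R_seed8.W450.RigDefs

/-!
The trivial extension `T(L) = L ⋉ D(L)` of a finite-dimensional algebra is a symmetric algebra.
-/

set_option autoImplicit false

open MulOpposite
open W450.Rig (IsConnectedRing)

namespace Pool.Agent.Helper60.GS

universe u

variable (K L : Type u) [Field K] [Ring L] [Algebra K L]

/-- the bimodule `D(L) = Hom_K(L, K)` -/
def DL : Type u := Module.Dual K L

instance : AddCommGroup (DL K L) := inferInstanceAs (AddCommGroup (Module.Dual K L))
instance : Module K (DL K L) := inferInstanceAs (Module K (Module.Dual K L))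

variable {K L}

def DL.app (φ : DL K L) (x : L) : K := (show Module.Dual K L from φ) x

theorem DL.ext {φ ψ : DL K L} (h : ∀ x, φ.app x = ψ.app x) : φ = ψ :=
  LinearMap.ext (f := (show Module.Dual K L from φ)) (g := (show Module.Dual K L from ψ)) h

theorem DL.app_add (φ ψ : DL K L) (x : L) : (φ + ψ).app x = φ.app x + ψ.app x := rfl
theorem DL.app_zero (x : L) : (0 : DL K L).app x = 0 := rfl
theorem DL.app_smul (k : K) (φ : DL K L) (x : L) : (k • φ).app x = k * φ.app x := rfl
theorem DL.app_map_add (φ : DL K L) (x y : L) : φ.app (x + y) = φ.app x + φ.app y :=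
  map_add (show Module.Dual K L from φ) x y
theorem DL.app_map_smul (φ : DL K L) (k : K) (x : L) : φ.app (k • x) = k * φ.app x :=
  map_smul (show Module.Dual K L from φ) k x
theorem DL.app_map_zero (φ : DL K L) : φ.app 0 = 0 :=
  map_zero (show Module.Dual K L from φ)

/-- `(a φ)(x) = φ(x a)` -/
instance : Module L (DL K L) where
  smul a φ := (show Module.Dual K L from φ) ∘ₗ LinearMap.mulRight K a
  one_smul φ := DL.ext fun x => congrArg φ.app (mul_one x)
  mul_smul a b φ := DL.ext fun x => congrArg φ.app (mul_assoc x a b).symm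
  smul_zero _ := rfl
  smul_add _ _ _ := rfl
  add_smul a b φ := DL.ext fun x => (congrArg φ.app (mul_add x a b)).trans (φ.app_map_add _ _)
  zero_smul φ := DL.ext fun x => (congrArg φ.app (mul_zero x)).trans φ.app_map_zero

/-- `(φ b)(x) = φ(b x)` -/
instance : Module Lᵐᵒᵖ (DL K L) where
  smul b φ := (show Module.Dual K L from φ) ∘ₗ LinearMap.mulLeft K b.unop
  one_smul φ := DL.ext fun x => congrArg φ.app (one_mul x)
  mul_smul a b φ := DL.ext fun x => congrArg φ.app (mul_assoc b.unop a.unop x)
  smul_zero _ := rfl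
  smul_add _ _ _ := rfl
  add_smul a b φ := DL.ext fun x =>
    (congrArg φ.app (add_mul a.unop b.unop x)).trans (φ.app_map_add _ _)
  zero_smul φ := DL.ext fun x => (congrArg φ.app (zero_mul x)).trans φ.app_map_zero

theorem DL.lsmul_app (a : L) (φ : DL K L) (x : L) : (a • φ).app x = φ.app (x * a) := rfl
theorem DL.rsmul_app (b : Lᵐᵒᵖ) (φ : DL K L) (x : L) : (b • φ).app x = φ.app (b.unop * x) := rfl

instance : SMulCommClass L Lᵐᵒᵖ (DL K L) where
  smul_comm a b φ := DL.ext fun x => congrArg φ.app (mul_assoc b.unop x a).symm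

instance : IsScalarTower K L (DL K L) where
  smul_assoc k a φ := DL.ext fun x =>
    (congrArg φ.app (mul_smul_comm k x a)).trans (φ.app_map_smul k _)

instance : IsScalarTower K Lᵐᵒᵖ (DL K L) where
  smul_assoc k a φ := DL.ext fun x =>
    (congrArg φ.app (smul_mul_assoc k a.unop x)).trans (φ.app_map_smul k _)

variable (K L) in
/-- the trivial extension -/
abbrev TE : Type u := TrivSqZeroExt L (DL K L)

example : Ring (TE K L) := inferInstance
noncomputable example : Algebra K (TE K L) := inferInstance

theorem TE.fst_mul (x y : TE K L) : (x * y).fst = x.fst * y.fst := rfl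
theorem TE.snd_mul (x y : TE K L) : (x * y).snd = x.fst • y.snd + op y.fst • x.snd := rfl

variable (K) in
/-- a symmetric algebra: a nondegenerate symmetric linear form -/
def IsSymm (B : Type u) [Ring B] [Algebra K B] : Prop :=
  ∃ t : B →ₗ[K] K, (∀ x y, t (x * y) = t (y * x)) ∧ ∀ x, (∀ y, t (x * y) = 0) → x = 0

theorem exists_dual_ne {x : L} (hx : x ≠ 0) : ∃ φ : DL K L, φ.app x ≠ 0 := by
  by_contra hcon
  push Not at hcon
  exact hx ((Module.forall_dual_apply_eq_zero_iff K x).1 fun g => hcon g)

theorem te_symm : IsSymm K (TE K L) := by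
  refine ⟨{ toFun := fun x => x.snd.app 1, map_add' := fun x y => rfl,
            map_smul' := fun k x => rfl }, fun x y => ?_, fun x hx => ?_⟩
  · change (x * y).snd.app 1 = (y * x).snd.app 1
    rw [TE.snd_mul, TE.snd_mul, DL.app_add, DL.app_add, DL.lsmul_app, DL.rsmul_app, DL.lsmul_app,
      DL.rsmul_app, one_mul, one_mul, unop_op, unop_op, mul_one, mul_one, add_comm]
  · have hx' : ∀ y : TE K L, y.snd.app x.fst + x.snd.app y.fst = 0 := by
      intro y
      have h1 : (x * y).snd.app 1 = 0 := hx y
      rw [TE.snd_mul, DL.app_add, DL.lsmul_app, DL.rsmul_app, one_mul, unop_op, mul_one] at h1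
      exact h1
    have h1 : x.fst = 0 := by
      by_contra hne
      obtain ⟨φ, hφ⟩ := exists_dual_ne (K := K) hne
      have h2 := hx' (TrivSqZeroExt.inr φ)
      rw [TrivSqZeroExt.snd_inr, TrivSqZeroExt.fst_inr, DL.app_map_zero, add_zero] at h2
      exact hφ h2
    have h2 : x.snd = 0 := by
      refine DL.ext fun b => ?_
      have h3 := hx' (TrivSqZeroExt.inl b)
      rw [TrivSqZeroExt.snd_inl, TrivSqZeroExt.fst_inl, DL.app_zero, zero_add] at h3
      exact h3
    exact TrivSqZeroExt.ext h1 h2

/-- the kernel of `T(L) → L` has square zero -/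
theorem te_sq {x y : TE K L} (hx : x.fst = 0) (hy : y.fst = 0) : x * y = 0 := by
  refine TrivSqZeroExt.ext ?_ ?_
  · rw [TE.fst_mul, hx, zero_mul]; rfl
  · rw [TE.snd_mul, hx, hy, zero_smul, op_zero, zero_smul, add_zero]; rfl

theorem te_connected (h : IsConnectedRing L) : IsConnectedRing (TE K L) := by
  obtain ⟨h1, h2⟩ := h
  refine ⟨⟨⟨0, 1, fun h => ?_⟩⟩, fun c hc hi => ?_⟩
  · exact zero_ne_one (congrArg TrivSqZeroExt.fst h)
  · have hf : c.fst = 0 ∨ c.fst = 1 := by
      refine h2 c.fst (fun a => ?_) (congrArg TrivSqZeroExt.fst hi)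
      exact congrArg TrivSqZeroExt.fst (hc (TrivSqZeroExt.inl a))
    rcases hf with hf | hf
    · left
      rw [← hi]
      exact te_sq hf hf
    · right
      have h3 : (1 - c).fst = 0 := by
        rw [TrivSqZeroExt.fst_sub, hf, TrivSqZeroExt.fst_one, sub_self]
      have h4 : (1 - c) * (1 - c) = 0 := te_sq h3 h3
      have h5 : (1 - c) * (1 - c) = 1 - c := by
        rw [sub_mul, mul_sub, mul_sub, hi, one_mul, one_mul, mul_one, sub_self, sub_zero]
      rw [h5] at h4
      exact (sub_eq_zero.1 h4).symm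

theorem te_not_semisimple (h : ¬ IsSemisimpleRing L) : ¬ IsSemisimpleRing (TE K L) := by
  intro hs
  apply h
  exact RingHom.isSemisimpleRing_of_surjective
    (TrivSqZeroExt.fstHom K L (DL K L) : TE K L →ₐ[K] L).toRingHom
    (fun x => ⟨TrivSqZeroExt.inl x, rfl⟩)

theorem te_finite [Module.Finite K L] : Module.Finite K (TE K L) := by
  have h1 : Module.Finite K (DL K L) := inferInstanceAs (Module.Finite K (Module.Dual K L))
  exact inferInstanceAs (Module.Finite K (L × DL K L))

end Pool.Agent.Helper60.GS
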