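import Mathlib
import Pool.Agent.Helper60.GS.Triv
import Pool.Agent.Helper60.GS.Size
import Pool.Agent.Helper60.GS.EndFin

/-!
The algebra `A = End_B(B ⊕ D(L))`, `B = T(L)`, and the surjection `A → L`.
-/

set_option autoImplicit false

open MulOpposite
open W450.Rig (IsConnectedRing oSize)

namespace Pool.Agent.Helper60.GS

universe u

variable (K L : Type u) [Field K] [Ring L] [Algebra K L]

/-- the ideal `D(L)` of `T(L)`, as a right module -/
def Idl : Submodule (TE K L)ᵐᵒᵖ (TE K L) where
  carrier := {x | x.fst = 0}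
  add_mem' {x y} hx hy := by
    change (x + y).fst = 0
    rw [TrivSqZeroExt.fst_add, hx, hy, add_zero]
  zero_mem' := rfl
  smul_mem' b x hx := by
    change (x * b.unop).fst = 0
    rw [TE.fst_mul, hx, zero_mul]

/-- the right module `B ⊕ D(L)` -/
abbrev GM : Type u := TE K L × Idl K L

/-- the algebra `A = End_B(B ⊕ D(L))` -/
abbrev GA : Type u := Module.End (TE K L)ᵐᵒᵖ (GM K L)

variable {K L}

theorem mem_idl {x : TE K L} : x ∈ Idl K L ↔ x.fst = 0 := Iff.rfl

theorem decomp (a : GA K L) (m : GM K L) : a m = op m.1 • a (1, 0) + a (0, m.2) := by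
  rw [← map_smul, ← map_add]
  congr 1
  refine Prod.ext ?_ ?_
  · change m.1 = 1 * m.1 + 0
    rw [one_mul, add_zero]
  · change m.2 = op m.1 • (0 : Idl K L) + m.2
    rw [smul_zero, zero_add]

theorem key (a : GA K L) (x : Idl K L) : (a (0, x)).1.fst = 0 := by
  by_contra hne
  obtain ⟨φ, hφ⟩ := exists_dual_ne (K := K) hne
  apply hφ
  have h1 : op (TrivSqZeroExt.inr φ : TE K L) • ((0, x) : GM K L) = 0 := by
    refine Prod.ext ?_ (Subtype.ext ?_)
    · exact zero_mul _
    · exact te_sq x.2 rfl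
  have h2 : op (TrivSqZeroExt.inr φ : TE K L) • a (0, x) = 0 := by
    rw [← map_smul, h1, map_zero]
  have h3 : (a (0, x)).1 * (TrivSqZeroExt.inr φ : TE K L) = 0 := congrArg Prod.fst h2
  have h4 := congrArg (fun y : TE K L => y.snd.app 1) h3
  simp only [TE.snd_mul, TrivSqZeroExt.snd_inr, TrivSqZeroExt.fst_inr, op_zero, zero_smul,
    add_zero, DL.lsmul_app, one_mul] at h4
  exact h4

/-- the map `A → L` on elements -/
def pf (a : GA K L) : L := (a (1, 0)).1.fst

theorem fst_apply (a : GA K L) (m : GM K L) : (a m).1.fst = pf a * m.1.fst := by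
  rw [decomp]
  change ((a (1, 0)).1 * m.1 + (a (0, m.2)).1).fst = _
  rw [TrivSqZeroExt.fst_add, key, add_zero, TE.fst_mul]
  rfl

variable (K L) in
/-- the surjection `A → L` -/
def pr : GA K L →+* L where
  toFun := pf
  map_one' := rfl
  map_mul' a b := fst_apply a (b (1, 0))
  map_zero' := rfl
  map_add' _ _ := rfl

theorem pr_apply (a : GA K L) : pr K L a = pf a := rfl

theorem pr_surj : Function.Surjective (pr K L) := by
  intro l
  refine ⟨{ toFun := fun m => (TrivSqZeroExt.inl l * m.1, 0)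
            map_add' := fun m n => ?_
            map_smul' := fun r m => ?_ }, ?_⟩
  · refine Prod.ext ?_ ?_
    · exact mul_add _ _ _
    · exact (add_zero _).symm
  · refine Prod.ext ?_ ?_
    · exact (mul_assoc _ _ _).symm
    · exact (smul_zero r).symm
  · change (TrivSqZeroExt.inl l * (1 : TE K L)).fst = l
    rw [mul_one]
    rfl

variable (K L) in
/-- the surjection on the opposite rings -/
def po : (GA K L)ᵐᵒᵖ →+* Lᵐᵒᵖ := (pr K L).op

theorem mem_ker {x : (GA K L)ᵐᵒᵖ} (hx : x ∈ RingHom.ker (po K L)) (m : GM K L) :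
    (x.unop m).1 ∈ Idl K L := by
  have h1 : pf x.unop = 0 := op_injective hx
  rw [mem_idl, fst_apply, h1, zero_mul]

theorem ker_of {x : (GA K L)ᵐᵒᵖ} (h : ∀ m : GM K L, (x.unop m).1 ∈ Idl K L) :
    x ∈ RingHom.ker (po K L) := by
  have h1 : pf x.unop = 0 := h (1, 0)
  exact congrArg op h1

def uu (a : GA K L) : GA K L :=
  LinearMap.inr _ _ _ ∘ₗ LinearMap.snd _ _ _ ∘ₗ a

def vv (a : GA K L) (h : ∀ m, (a m).1 ∈ Idl K L) : GA K L :=
  LinearMap.inr _ _ _ ∘ₗ (LinearMap.codRestrict (Idl K L) (LinearMap.fst _ _ _ ∘ₗ a) h)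

def ss (c d : GA K L) : GA K L :=
  LinearMap.prod ((Idl K L).subtype ∘ₗ LinearMap.snd _ _ _ ∘ₗ d) (LinearMap.snd _ _ _ ∘ₗ c)

theorem uu_apply (a : GA K L) (m : GM K L) : uu a m = (0, (a m).2) := rfl
theorem vv_apply (a : GA K L) (h) (m : GM K L) : vv a h m = (0, ⟨(a m).1, h m⟩) := rfl
theorem ss_apply (c d : GA K L) (m : GM K L) : ss c d m = ((d m).2.1, (c m).2) := rfl

def split₁ : RingHom.ker (po K L) →ₗ[(GA K L)ᵐᵒᵖ] (GA K L)ᵐᵒᵖ × (GA K L)ᵐᵒᵖ where
  toFun x := (op (uu x.1.unop), op (vv x.1.unop (mem_ker x.2)))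
  map_add' x y := by
    refine Prod.ext (unop_injective ?_) (unop_injective ?_)
    · refine LinearMap.ext fun m => Prod.ext ?_ rfl
      exact (add_zero _).symm
    · refine LinearMap.ext fun m => Prod.ext ?_ rfl
      exact (add_zero _).symm
  map_smul' _ _ := rfl

def split₂ : (GA K L)ᵐᵒᵖ × (GA K L)ᵐᵒᵖ →ₗ[(GA K L)ᵐᵒᵖ] RingHom.ker (po K L) where
  toFun y := ⟨op (ss y.1.unop y.2.unop), ker_of fun m => (y.2.unop m).2.2⟩
  map_add' _ _ := rfl
  map_smul' _ _ := rfl

theorem split : split₂ ∘ₗ split₁ = (LinearMap.id : RingHom.ker (po K L) →ₗ[(GA K L)ᵐᵒᵖ] _) := rfl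

theorem ker_proj : Module.Projective (GA K L)ᵐᵒᵖ (RingHom.ker (po K L)) :=
  Module.Projective.of_split split₁ split₂ split

variable (K L) in
def ff : GA K L := LinearMap.inr _ _ _ ∘ₗ LinearMap.snd _ _ _

variable (K L) in
def ii : GA K L := LinearMap.inl _ _ _ ∘ₗ (Idl K L).subtype ∘ₗ LinearMap.snd _ _ _

theorem ff_mem : op (ff K L) ∈ RingHom.ker (po K L) := ker_of fun _ => Submodule.zero_mem _

theorem ii_mem : op (ii K L) ∈ RingHom.ker (po K L) := ker_of fun m => m.2.2

theorem uu_mem (a : GA K L) : op (uu a) ∈ RingHom.ker (po K L) :=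
  ker_of fun _ => Submodule.zero_mem _

theorem vv_mem (a : GA K L) (h) : op (vv a h) ∈ RingHom.ker (po K L) :=
  ker_of fun _ => Submodule.zero_mem _

theorem ker_idem (x : (GA K L)ᵐᵒᵖ) (hx : x ∈ RingHom.ker (po K L)) :
    ∃ (n : ℕ) (a b : Fin n → (GA K L)ᵐᵒᵖ), (∀ i, a i ∈ RingHom.ker (po K L)) ∧
      (∀ i, b i ∈ RingHom.ker (po K L)) ∧ x = ∑ i, a i * b i := by
  refine ⟨2, ![op (uu x.unop), op (vv x.unop (mem_ker hx))], ![op (ff K L), op (ii K L)],
    ?_, ?_, ?_⟩
  · intro i
    fin_cases i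
    · exact uu_mem _
    · exact vv_mem _ _
  · intro i
    fin_cases i
    · exact ff_mem
    · exact ii_mem
  · rw [Fin.sum_univ_two]
    change x = op (uu x.unop) * op (ff K L) + op (vv x.unop (mem_ker hx)) * op (ii K L)
    apply unop_injective
    rw [unop_add, unop_mul, unop_mul, unop_op, unop_op, unop_op, unop_op]
    refine LinearMap.ext fun m => Prod.ext ?_ ?_
    · exact (zero_add _).symm
    · exact (add_zero _).symm

/-- the surjection `Aᵒᵖ → Lᵒᵖ` is good -/
theorem po_good : Good (R := (GA K L)ᵐᵒᵖ) (S := Lᵐᵒᵖ) (po K L) where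
  surj := fun x => by
    obtain ⟨a, ha⟩ := pr_surj (K := K) (L := L) x.unop
    exact ⟨op a, unop_injective ha⟩
  proj := ker_proj
  idem := ker_idem

theorem connected_of {R S : Type u} [Ring R] [Ring S] (π : R →+* S)
    (hπ : Function.Surjective π)
    (hcase : ∀ c : R, (∀ a, c * a = a * c) → c * c = c → π c = 0 → c = 0)
    (h : IsConnectedRing S) : IsConnectedRing R := by
  obtain ⟨h1, h2⟩ := h
  refine ⟨⟨⟨0, 1, fun h => ?_⟩⟩, fun c hc hi => ?_⟩
  · have h3 := congrArg π h
    rw [map_zero, map_one] at h3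
    exact zero_ne_one h3
  · have hf : π c = 0 ∨ π c = 1 := by
      refine h2 (π c) (fun l => ?_) ?_
      · obtain ⟨a, rfl⟩ := hπ l
        rw [← map_mul, ← map_mul, hc a]
      · rw [← map_mul, hi]
    rcases hf with hf | hf
    · left
      exact hcase c hc hi hf
    · right
      have h3 : (1 - c) = 0 := by
        refine hcase (1 - c) (fun a => ?_) ?_ ?_
        · rw [sub_mul, mul_sub, hc a, one_mul, mul_one]
        · rw [sub_mul, mul_sub, mul_sub, hi, one_mul, one_mul, mul_one, sub_self, sub_zero]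
        · rw [map_sub, map_one, hf, sub_self]
      exact (sub_eq_zero.1 h3).symm

theorem ga_connected (h : IsConnectedRing L) : IsConnectedRing (GA K L) := by
  have hcase : ∀ c : GA K L, (∀ a, c * a = a * c) → c * c = c → pf c = 0 → c = 0 := by
    intro c hc hi h0
    -- `c` maps everything into `I ⊕ I`
    have hI : ∀ m, (c m).1.fst = 0 := fun m => by rw [fst_apply, h0, zero_mul]
    -- projection onto the first summand
    have he : c (1, 0) = ((c (1, 0)).1, 0) := by
      have h3 := hc (LinearMap.inl _ _ _ ∘ₗ LinearMap.fst _ _ _)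
      have h4 := LinearMap.congr_fun h3 ((1, 0) : GM K L)
      exact h4
    have hz : c (1, 0) = 0 := by
      have h3 : c (c (1, 0)) = c (1, 0) := LinearMap.congr_fun hi ((1, 0) : GM K L)
      have h4 : c (c (1, 0)) = 0 := by
        rw [he, decomp c]
        have h5 : c (0, 0) = 0 := map_zero c
        change op (c (1, 0)).1 • c (1, 0) + c (0, 0) = 0
        rw [h5, add_zero]
        refine Prod.ext ?_ (Subtype.ext ?_)
        · exact te_sq (hI _) (hI _)
        · exact te_sq (c (1, 0)).2.2 (hI _)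
      rw [← h3, h4]
    have hz2 : ∀ x : Idl K L, c (0, x) = 0 := by
      intro x
      let g : GA K L :=
        { toFun := fun m => (0, op m.1 • x)
          map_add' := fun m n => by
            refine Prod.ext (add_zero _).symm ?_
            change op (m.1 + n.1) • x = op m.1 • x + op n.1 • x
            rw [op_add, add_smul]
          map_smul' := fun r m => by
            refine Prod.ext (zero_mul _).symm ?_
            change op (m.1 * r.unop) • x = r • op m.1 • x
            rw [op_mul, mul_smul, op_unop] }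
      have h3 : g (1, 0) = (0, x) := by
        refine Prod.ext rfl ?_
        change op (1 : TE K L) • x = x
        rw [op_one, one_smul]
      have h4 := LinearMap.congr_fun (hc g) ((1, 0) : GM K L)
      have h5 : c (g (1, 0)) = g (c (1, 0)) := h4
      rw [h3, hz, map_zero] at h5
      exact h5
    refine LinearMap.ext fun m => ?_
    rw [decomp, hz, hz2, smul_zero, add_zero]
    rfl
  exact connected_of (pr K L) pr_surj hcase h

theorem nss_of {R S : Type u} [Ring R] [Ring S] (π : R →+* S) (hπ : Function.Surjective π)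
    (h : ¬ IsSemisimpleRing S) : ¬ IsSemisimpleRing R := fun hs =>
  h (have := hs; RingHom.isSemisimpleRing_of_surjective π hπ)

theorem ga_not_semisimple (h : ¬ IsSemisimpleRing L) : ¬ IsSemisimpleRing (GA K L) :=
  nss_of (pr K L) pr_surj h

theorem gm_finite [Module.Finite K L] : Module.Finite (TE K L)ᵐᵒᵖ (GM K L) := by
  have h1 : Module.Finite K (TE K L) := te_finite
  have h2 : IsScalarTower K (TE K L)ᵐᵒᵖ (TE K L) := ⟨fun k b m => mul_smul_comm k m b.unop⟩
  have h3 : IsNoetherian K (TE K L) := inferInstance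
  have h4 : IsNoetherian (TE K L)ᵐᵒᵖ (TE K L) := isNoetherian_of_tower K h3
  have h5 : Module.Finite (TE K L)ᵐᵒᵖ (Idl K L) := inferInstance
  exact inferInstance

end Pool.Agent.Helper60.GS
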